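import Pool.Agent.K1H76.OM.Num

/-! Project OM: the norm of the test function (S_L1). -/

namespace Pool.Agent.K1H49.OM

open Pool.Agent.K1H76.OM Finset MeasureTheory

/-- the real and imaginary parts of `(c + i s)^(2k+1)` (for `c^2+s^2=1`) -/
def cs {R : Type} [CommRing R] (c s : R) : ℕ → R × R
  | 0 => (c, s)
  | k + 1 => ((cs c s k).1 * (c ^ 2 - s ^ 2) - (cs c s k).2 * (2 * s * c),
      (cs c s k).2 * (c ^ 2 - s ^ 2) + (cs c s k).1 * (2 * s * c))

theorem cs_trig (φ : ℝ) (k : ℕ) : cs (Real.cos φ) (Real.sin φ) k =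
    (Real.cos ((2 * k + 1) * φ), Real.sin ((2 * k + 1) * φ)) := by
  induction k with
  | zero => simp [cs]
  | succ k ih =>
    have e : (2 * ((k + 1 : ℕ) : ℝ) + 1) * φ = (2 * k + 1) * φ + 2 * φ := by push_cast; ring
    rw [cs, ih, e, Real.cos_add, Real.sin_add, Real.sin_two_mul, Real.cos_two_mul']

theorem cs_cast (c s : ℚ) (k : ℕ) : cs (c : ℝ) (s : ℝ) k =
    (((cs c s k).1 : ℝ), ((cs c s k).2 : ℝ)) := by
  induction k with
  | zero => rfl
  | succ k ih => rw [cs, ih, cs]; push_cast; rfl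

/-- the nodes: `(A, B, C)` with `cos = A / C`, `sin = B / C` -/
def tr : List (ℤ × ℤ × ℤ) := [(1, 0, 1), (24, 7, 25), (35, 12, 37), (45, 28, 53), (55, 48, 73),
  (3, 4, 5), (8, 15, 17), (12, 35, 37), (9, 40, 41), (0, 1, 1), (-15, 112, 113), (-4, 3, 5),
  (-45, 28, 53), (-12, 5, 13), (-63, 16, 65), (-1, 0, 1)]

def nA (i : ℕ) : ℤ := (tr.getD i (0, 0, 0)).1
def nB (i : ℕ) : ℤ := (tr.getD i (0, 0, 0)).2.1
def nC (i : ℕ) : ℤ := (tr.getD i (0, 0, 0)).2.2

theorem nC_pos {i : ℕ} (hi : i < 16) : 0 < nC i := by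
  interval_cases i <;> decide

theorem nB_nonneg {i : ℕ} (hi : i < 16) : 0 ≤ nB i := by
  interval_cases i <;> decide

theorem n_sq {i : ℕ} (hi : i < 16) : nA i ^ 2 + nB i ^ 2 = nC i ^ 2 := by
  interval_cases i <;> decide

theorem n_mono {i : ℕ} (hi : i < 15) : nA (i + 1) * nC i ≤ nA i * nC (i + 1) := by
  interval_cases i <;> decide

/-- the nodes -/
noncomputable def nd (i : ℕ) : ℝ := Real.arccos ((nA i : ℝ) / nC i)

theorem nC_pos' {i : ℕ} (hi : i < 16) : (0 : ℝ) < nC i := by exact_mod_cast nC_pos hi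

theorem abs_le {i : ℕ} (hi : i < 16) : -1 ≤ (nA i : ℝ) / nC i ∧ (nA i : ℝ) / nC i ≤ 1 := by
  have h := n_sq hi
  have hB := nB_nonneg hi
  have hC := nC_pos hi
  have h1 : nA i ≤ nC i := by nlinarith
  have h2 : -nC i ≤ nA i := by nlinarith
  have hC' := nC_pos' hi
  refine ⟨?_, ?_⟩
  · rw [le_div_iff₀ hC']
    have : (-(nC i : ℝ)) ≤ nA i := by exact_mod_cast h2
    linarith
  · rw [div_le_iff₀ hC']
    have : ((nA i : ℝ)) ≤ nC i := by exact_mod_cast h1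
    linarith

theorem cos_nd {i : ℕ} (hi : i < 16) : Real.cos (nd i) = (nA i : ℝ) / nC i :=
  Real.cos_arccos (abs_le hi).1 (abs_le hi).2

theorem sin_nd {i : ℕ} (hi : i < 16) : Real.sin (nd i) = (nB i : ℝ) / nC i := by
  have hC' := nC_pos' hi
  have hB : (0 : ℝ) ≤ nB i := by exact_mod_cast nB_nonneg hi
  rw [nd, Real.sin_arccos]
  have h : (nA i : ℝ) ^ 2 + (nB i : ℝ) ^ 2 = (nC i : ℝ) ^ 2 := by exact_mod_cast n_sq hi
  have e : 1 - ((nA i : ℝ) / nC i) ^ 2 = ((nB i : ℝ) / nC i) ^ 2 := by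
    field_simp
    linarith
  rw [e, Real.sqrt_sq (by positivity)]

theorem nd_mem (i : ℕ) : 0 ≤ nd i ∧ nd i ≤ Real.pi := ⟨Real.arccos_nonneg _, Real.arccos_le_pi _⟩

theorem nd_succ {i : ℕ} (hi : i < 15) : nd i ≤ nd (i + 1) := by
  refine Real.arccos_le_arccos ?_
  rw [div_le_div_iff₀ (nC_pos' (by omega)) (nC_pos' (by omega))]
  have := n_mono hi
  exact_mod_cast this

theorem nd_le {i j : ℕ} (hij : i ≤ j) (hj : j < 16) : nd i ≤ nd j := by
  induction j, hij using Nat.le_induction with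
  | base => exact le_rfl
  | succ j hij ih => exact (ih (by omega)).trans (nd_succ (by omega))

/-- the product form of the test function -/
theorem prod_form (φ : ℝ) : Wf φ = 2 ^ 14 * ∏ j ∈ range 15,
    ((nA j : ℝ) * Real.sin φ - (nB j : ℝ) * Real.cos φ) := by
  have h1 : Wf φ = ∑ k ∈ range 8, (wa k * (cs (Real.cos φ) (Real.sin φ) k).1 +
      wb k * (cs (Real.cos φ) (Real.sin φ) k).2) *
        ((Real.cos φ) ^ 2 + (Real.sin φ) ^ 2) ^ (7 - k) := by
    rw [Wf]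
    refine sum_congr rfl fun k _ => ?_
    rw [cs_trig, Real.cos_sq_add_sin_sq, one_pow, mul_one]
  rw [h1]
  generalize Real.cos φ = c
  generalize Real.sin φ = s
  simp only [sum_range_succ, prod_range_succ, sum_range_zero, prod_range_zero, wa, wb, wd, nA, nB,
    tr, cs, List.getD_cons_zero, List.getD_cons_succ, Nat.sub_self, Nat.reduceSub]
  push_cast
  ring

/-- the antiderivative -/
noncomputable def F (φ : ℝ) : ℝ := ∑ k ∈ range 8,
  (wa k * Real.sin ((2 * k + 1) * φ) - wb k * Real.cos ((2 * k + 1) * φ)) / (2 * k + 1)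

theorem hasDeriv_F (φ : ℝ) : HasDerivAt F (Wf φ) φ := by
  unfold F Wf
  refine HasDerivAt.fun_sum fun k _ => ?_
  have h0 : (2 * (k : ℝ) + 1) ≠ 0 := by positivity
  have h1 : HasDerivAt (fun φ : ℝ => (2 * (k : ℝ) + 1) * φ) (2 * (k : ℝ) + 1) φ := by
    simpa using (hasDerivAt_id φ).const_mul (2 * (k : ℝ) + 1)
  have h2 := (((h1.sin).const_mul (wa k)).sub ((h1.cos).const_mul (wb k))).div_const
    (2 * (k : ℝ) + 1)
  refine h2.congr_deriv ?_
  rw [div_eq_iff h0]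
  ring

theorem continuous_Wf : Continuous Wf := by
  unfold Wf
  fun_prop

/-- rational values of the antiderivative -/
def gq (c s : ℚ) : ℚ := ∑ k ∈ range 8,
  (((wd.getD k (0, 0)).1 : ℚ) * (cs c s k).2 - ((wd.getD k (0, 0)).2 : ℚ) * (cs c s k).1) /
    (2 * k + 1)

def vq (i : ℕ) : ℚ := gq ((nA i : ℚ) / nC i) ((nB i : ℚ) / nC i)

theorem F_nd {i : ℕ} (hi : i < 16) : F (nd i) = (vq i : ℝ) := by
  have h := fun k => cs_trig (nd i) k
  rw [cos_nd hi, sin_nd hi] at h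
  have h2 : ∀ k : ℕ, (Real.cos ((2 * (k : ℝ) + 1) * nd i),
      Real.sin ((2 * (k : ℝ) + 1) * nd i)) =
      (((cs ((nA i : ℚ) / nC i) ((nB i : ℚ) / nC i) k).1 : ℝ),
        ((cs ((nA i : ℚ) / nC i) ((nB i : ℚ) / nC i) k).2 : ℝ)) := by
    intro k
    rw [← h, ← cs_cast]
    push_cast
    rfl
  rw [F, vq, gq]
  push_cast
  refine sum_congr rfl fun k _ => ?_
  have h3 := congrArg Prod.fst (h2 k)
  have h4 := congrArg Prod.snd (h2 k)
  simp only at h3 h4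
  rw [h3, h4, wa, wb]

theorem total : ∑ k ∈ range 15, (-1 : ℚ) ^ k * (vq (k + 1) - vq k) ≤
    362738000000000000000 := by
  decide +kernel

theorem factor_eq {j : ℕ} (hj : j < 16) (φ : ℝ) :
    (nA j : ℝ) * Real.sin φ - (nB j : ℝ) * Real.cos φ = nC j * Real.sin (φ - nd j) := by
  have hC := (nC_pos' hj).ne'
  rw [Real.sin_sub, cos_nd hj, sin_nd hj]
  field_simp

theorem sign_pos {j : ℕ} (hj : j < 16) {φ : ℝ} (h1 : nd j ≤ φ) (h2 : φ ≤ Real.pi) :
    0 ≤ (nA j : ℝ) * Real.sin φ - (nB j : ℝ) * Real.cos φ := by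
  rw [factor_eq hj]
  have := (nd_mem j).1
  exact mul_nonneg (nC_pos' hj).le (Real.sin_nonneg_of_nonneg_of_le_pi (by linarith) (by linarith))

theorem sign_neg {j : ℕ} (hj : j < 16) {φ : ℝ} (h1 : φ ≤ nd j) (h2 : 0 ≤ φ) :
    0 ≤ -((nA j : ℝ) * Real.sin φ - (nB j : ℝ) * Real.cos φ) := by
  rw [factor_eq hj, ← mul_neg, ← Real.sin_neg]
  have := (nd_mem j).2
  exact mul_nonneg (nC_pos' hj).le (Real.sin_nonneg_of_nonneg_of_le_pi (by linarith) (by linarith))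

theorem sign_Wf {k : ℕ} (hk : k < 15) {φ : ℝ} (h1 : nd k ≤ φ) (h2 : φ ≤ nd (k + 1)) :
    0 ≤ (-1 : ℝ) ^ k * Wf φ := by
  have h0 : 0 ≤ φ := (nd_mem k).1.trans h1
  have hπ : φ ≤ Real.pi := h2.trans (nd_mem (k + 1)).2
  rw [prod_form, ← prod_range_mul_prod_Ico _ (show k + 1 ≤ 15 by omega)]
  have e1 : (-1 : ℝ) ^ k = (-1) ^ (14 - k) := by
    have : (-1 : ℝ) ^ 14 = 1 := by norm_num
    calc (-1 : ℝ) ^ k = (-1) ^ k * ((-1) ^ (14 - k) * (-1) ^ (14 - k)) := by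
          rw [← mul_pow]; norm_num
      _ = (-1) ^ (k + (14 - k)) * (-1) ^ (14 - k) := by rw [pow_add]; ring
      _ = (-1) ^ (14 - k) := by rw [show k + (14 - k) = 14 by omega, this, one_mul]
  have e2 : (-1 : ℝ) ^ (14 - k) * ∏ j ∈ Ico (k + 1) 15,
      ((nA j : ℝ) * Real.sin φ - (nB j : ℝ) * Real.cos φ) =
      ∏ j ∈ Ico (k + 1) 15, -((nA j : ℝ) * Real.sin φ - (nB j : ℝ) * Real.cos φ) := by
    rw [prod_neg, Nat.card_Ico, show 15 - (k + 1) = 14 - k by omega]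
  have e3 : (-1 : ℝ) ^ k * (2 ^ 14 * ((∏ j ∈ range (k + 1),
      ((nA j : ℝ) * Real.sin φ - (nB j : ℝ) * Real.cos φ)) * ∏ j ∈ Ico (k + 1) 15,
      ((nA j : ℝ) * Real.sin φ - (nB j : ℝ) * Real.cos φ))) =
      2 ^ 14 * ((∏ j ∈ range (k + 1),
      ((nA j : ℝ) * Real.sin φ - (nB j : ℝ) * Real.cos φ)) * ∏ j ∈ Ico (k + 1) 15,
      -((nA j : ℝ) * Real.sin φ - (nB j : ℝ) * Real.cos φ)) := by
    rw [← e2, e1]; ring
  rw [e3]
  refine mul_nonneg (by positivity) (mul_nonneg (prod_nonneg fun j hj => ?_)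
    (prod_nonneg fun j hj => ?_))
  · rw [mem_range] at hj
    exact sign_pos (by omega) ((nd_le (by omega) (by omega)).trans h1) hπ
  · rw [mem_Ico] at hj
    exact sign_neg (by omega) (h2.trans (nd_le (by omega) (by omega))) h0

theorem int_piece {k : ℕ} (hk : k < 15) : ∫ φ in (nd k)..(nd (k + 1)), |Wf φ| =
    (-1 : ℝ) ^ k * (F (nd (k + 1)) - F (nd k)) := by
  have h1 : ∫ φ in (nd k)..(nd (k + 1)), |Wf φ| = ∫ φ in (nd k)..(nd (k + 1)),
      (-1 : ℝ) ^ k * Wf φ := by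
    refine intervalIntegral.integral_congr fun φ hφ => ?_
    rw [Set.uIcc_of_le (nd_succ hk)] at hφ
    have h2 := sign_Wf hk hφ.1 hφ.2
    have h3 : |Wf φ| = |(-1 : ℝ) ^ k * Wf φ| := by
      rw [abs_mul, abs_pow, abs_neg, abs_one, one_pow, one_mul]
    show |Wf φ| = _
    rw [h3, abs_of_nonneg h2]
  rw [h1, intervalIntegral.integral_const_mul,
    intervalIntegral.integral_eq_sub_of_hasDerivAt (fun x _ => hasDeriv_F x)
      (continuous_Wf.intervalIntegrable _ _)]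

/-- the norm of the test function -/
theorem t_L1 : S_L1 := by
  have h0 : nd 0 = 0 := by simp [nd, nA, nC, tr]
  have h15 : nd 15 = Real.pi := by simp [nd, nA, nC, tr]
  have h1 := intervalIntegral.sum_integral_adjacent_intervals (f := fun φ => |Wf φ|)
    (μ := volume) (a := nd) (n := 15)
    (fun k _ => (continuous_Wf.abs).intervalIntegrable _ _)
  rw [h0, h15] at h1
  rw [S_L1, ← h1]
  have h2 : ∑ k ∈ range 15, ∫ φ in (nd k)..(nd (k + 1)), |Wf φ| =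
      ((∑ k ∈ range 15, (-1 : ℚ) ^ k * (vq (k + 1) - vq k) : ℚ) : ℝ) := by
    push_cast
    refine sum_congr rfl fun k hk => ?_
    rw [mem_range] at hk
    rw [int_piece hk, F_nd (by omega), F_nd (by omega)]
  rw [h2]
  exact_mod_cast total

end Pool.Agent.K1H49.OM
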